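import Pool.Agent.L7h3.SC.Stm

set_option autoImplicit false

/-! Project SC (helper3), parts OFF and PER. -/

namespace Pool.Agent.L7h70.SC

open Pool.Agent.L7h3.SC

section

variable {E : Type} [NormedAddCommGroup E] [NormedSpace ℝ E]

theorem lt_of_bort [StrictConvexSpace ℝ E] (e u : E) (hu : u ≠ 0) (hB : Bort e u) (t : ℝ)
    (ht : t ≠ 0) : ‖e‖ < ‖e + t • u‖ := by
  by_contra h
  have h := not_lt.1 h
  have hne : e ≠ e + t • u := by
    intro h1
    have h2 : t • u = 0 := by
      have h3 : e + 0 = e + t • u := by rw [add_zero]; exact h1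
      exact (add_left_cancel h3).symm
    rcases smul_eq_zero.1 h2 with h2 | h2 <;> contradiction
  have h3 := norm_combo_lt_of_ne (le_refl ‖e‖) h hne (a := 1/2) (b := 1/2) (by norm_num)
    (by norm_num) (by norm_num)
  have h4 : (1/2 : ℝ) • e + (1/2 : ℝ) • (e + t • u) = e + (t/2) • u := by module
  rw [h4] at h3
  exact absurd (hB (t/2)) (not_le.2 h3)

theorem shrink [StrictConvexSpace ℝ E] (e u : E) (hu : u ≠ 0) (hB : Bort e u) (l t : ℝ)
    (hl0 : 0 ≤ l) (hl1 : l < 1) (ht : t ≠ 0) : ‖e + (l * t) • u‖ < ‖e + t • u‖ := by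
  have h1 := lt_of_bort e u hu hB t ht
  have h2 : e + (l * t) • u = (1 - l) • e + l • (e + t • u) := by module
  calc ‖e + (l * t) • u‖ = ‖(1 - l) • e + l • (e + t • u)‖ := by rw [h2]
    _ ≤ ‖(1 - l) • e‖ + ‖l • (e + t • u)‖ := norm_add_le _ _
    _ = (1 - l) * ‖e‖ + l * ‖e + t • u‖ := by
      rw [norm_smul, norm_smul, Real.norm_of_nonneg (by linarith), Real.norm_of_nonneg hl0]
    _ < ‖e + t • u‖ := by nlinarith

theorem up [StrictConvexSpace ℝ E] (e u : E) (hu : u ≠ 0) (hB : Bort e u) (a a' : ℝ)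
    (h0 : 0 ≤ a) (h1 : a < a') : ‖e + a • u‖ < ‖e + a' • u‖ := by
  have h2 : 0 < a' := lt_of_le_of_lt h0 h1
  have h3 := shrink e u hu hB (a / a') a' (div_nonneg h0 h2.le) ((div_lt_one h2).2 h1) h2.ne'
  rwa [div_mul_cancel₀ _ h2.ne'] at h3

theorem down [StrictConvexSpace ℝ E] (e u : E) (hu : u ≠ 0) (hB : Bort e u) (b b' : ℝ)
    (h0 : 0 ≤ b') (h1 : b' < b) : ‖e + (-b') • u‖ < ‖e + (-b) • u‖ := by
  have h2 : 0 < b := lt_of_le_of_lt h0 h1
  have h3 := shrink e u hu hB (b' / b) (-b) (div_nonneg h0 h2.le) ((div_lt_one h2).2 h1)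
    (neg_ne_zero.2 h2.ne')
  have h4 : b' / b * -b = -b' := by field_simp
  rwa [h4] at h3

end

theorem s_OFF : S_OFF := by
  intro E _ _ _ e u s α β τ σ he hu hB hs hβ hβα hτ hτs hσ hσs h1 h2
  have hα : 0 < α := lt_of_lt_of_le hβ hβα
  have k1 : ‖e + (-(τ / α)) • u‖ = ‖e + ((s - τ) / α) • u‖ := by
    have e1 : α • e - τ • u = α • (e + (-(τ / α)) • u) := by
      rw [smul_add, smul_smul]
      have : α * -(τ / α) = -τ := by field_simp
      rw [this, neg_smul, sub_eq_add_neg]
    have e2 : α • e + (s - τ) • u = α • (e + ((s - τ) / α) • u) := by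
      rw [smul_add, smul_smul]
      have : α * ((s - τ) / α) = s - τ := by field_simp
      rw [this]
    rw [e1, e2, norm_smul, norm_smul] at h1
    exact mul_left_cancel₀ (norm_ne_zero_iff.2 hα.ne') h1
  have k2 : ‖e + (-(σ / β)) • u‖ = ‖e + ((s - σ) / β) • u‖ := by
    have e1 : β • e - σ • u = β • (e + (-(σ / β)) • u) := by
      rw [smul_add, smul_smul]
      have : β * -(σ / β) = -σ := by field_simp
      rw [this, neg_smul, sub_eq_add_neg]
    have e2 : β • e + (s - σ) • u = β • (e + ((s - σ) / β) • u) := by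
      rw [smul_add, smul_smul]
      have : β * ((s - σ) / β) = s - σ := by field_simp
      rw [this]
    rw [e1, e2, norm_smul, norm_smul] at h2
    exact mul_left_cancel₀ (norm_ne_zero_iff.2 hβ.ne') h2
  have hb : 0 ≤ τ / α := div_nonneg hτ hα.le
  have ha : 0 ≤ (s - τ) / α := div_nonneg (by linarith) hα.le
  have hb' : 0 ≤ σ / β := div_nonneg hσ hβ.le
  have ha' : 0 ≤ (s - σ) / β := div_nonneg (by linarith) hβ.le
  have hab : τ / α + (s - τ) / α = s / α := by field_simp; ring
  have hab' : σ / β + (s - σ) / β = s / β := by field_simp; ring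
  have hle : s / α ≤ s / β := div_le_div_of_nonneg_left hs.le hβ hβα
  have c1 : τ / α ≤ σ / β := by
    by_contra h
    have h := not_le.1 h
    have q1 := down e u hu hB _ _ hb' h
    have q2 := up e u hu hB _ _ ha (by linarith : (s - τ) / α < (s - σ) / β)
    linarith
  have c2 : (s - τ) / α ≤ (s - σ) / β := by
    by_contra h
    have h := not_le.1 h
    have q1 := up e u hu hB _ _ ha' h
    have q2 := down e u hu hB _ _ hb (by linarith : τ / α < σ / β)
    linarith
  -- cleared denominators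
  have d1 : τ * β ≤ σ * α := by
    rw [div_le_div_iff₀ hα hβ] at c1
    exact c1
  have d2 : (s - τ) * β ≤ (s - σ) * α := by
    rw [div_le_div_iff₀ hα hβ] at c2
    exact c2
  have d3 : (σ - τ) * α ≤ s * (α - β) := by
    nlinarith [mul_nonneg hτ (sub_nonneg.2 hβα)]
  have d4 : -((σ - τ) * α) ≤ s * (α - β) := by
    nlinarith [mul_nonneg (sub_nonneg.2 hτs) (sub_nonneg.2 hβα)]
  rw [← abs_of_pos hα, ← abs_mul]
  rw [abs_of_pos hα]
  exact abs_le.2 ⟨by linarith, d3⟩

theorem s_PER : S_PER := by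
  intro E _ _ z u s hs hz
  have hc : ContinuousOn (fun t : ℝ => ‖z + t • u‖) (Set.Icc 0 s) := by fun_prop
  obtain ⟨τ, hτ, hmin⟩ := isCompact_Icc.exists_isMinOn (Set.nonempty_Icc.2 hs.le) hc
  have hmin' : ∀ t ∈ Set.Icc (0 : ℝ) s, ‖z + τ • u‖ ≤ ‖z + t • u‖ := fun t ht => hmin ht
  refine ⟨τ, hτ.1, hτ.2, ?_⟩
  have key : ∀ t : ℝ, ‖z + τ • u‖ ≤ ‖z + t • u‖ := by
    intro t
    have h0 := hmin' 0 ⟨le_refl _, hs.le⟩
    rw [zero_smul, add_zero] at h0
    rcases lt_or_ge t 0 with ht | ht
    · refine h0.trans ?_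
      have hd : 0 < s - t := by linarith
      have e1 : z = (s / (s - t)) • (z + t • u) + (-t / (s - t)) • (z + s • u) := by
        have a1 : s / (s - t) + -t / (s - t) = 1 := by field_simp; ring
        have a2 : s / (s - t) * t + -t / (s - t) * s = 0 := by field_simp; ring
        calc z = (1 : ℝ) • z + (0 : ℝ) • u := by simp
          _ = (s / (s - t) + -t / (s - t)) • z + (s / (s - t) * t + -t / (s - t) * s) • u := by
            rw [a1, a2]
          _ = _ := by module
      have p1 : 0 < s / (s - t) := div_pos hs hd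
      have p2 : 0 ≤ -t / (s - t) := div_nonneg (by linarith) hd.le
      have a1 : s / (s - t) + -t / (s - t) = 1 := by field_simp; ring
      have h1 : ‖z‖ ≤ s / (s - t) * ‖z + t • u‖ + -t / (s - t) * ‖z‖ := by
        calc ‖z‖ = ‖(s / (s - t)) • (z + t • u) + (-t / (s - t)) • (z + s • u)‖ := by rw [← e1]
          _ ≤ ‖(s / (s - t)) • (z + t • u)‖ + ‖(-t / (s - t)) • (z + s • u)‖ := norm_add_le _ _
          _ = _ := by
            rw [norm_smul, norm_smul, Real.norm_of_nonneg p1.le, Real.norm_of_nonneg p2, ← hz]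
      have h2 : s / (s - t) * ‖z‖ ≤ s / (s - t) * ‖z + t • u‖ := by
        have : s / (s - t) * ‖z‖ + -t / (s - t) * ‖z‖ = ‖z‖ := by rw [← add_mul, a1, one_mul]
        linarith
      exact le_of_mul_le_mul_left h2 p1
    · rcases le_or_gt t s with hts | hts
      · exact hmin' t ⟨ht, hts⟩
      · refine h0.trans ?_
        have ht0 : 0 < t := lt_trans hs hts
        have e1 : z + s • u = (s / t) • (z + t • u) + ((t - s) / t) • z := by
          have a1 : s / t + (t - s) / t = 1 := by field_simp; ring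
          have a2 : s / t * t = s := by field_simp
          calc z + s • u = (s / t + (t - s) / t) • z + (s / t * t) • u := by
                rw [a1, a2, one_smul]
            _ = _ := by module
        have p1 : 0 < s / t := div_pos hs ht0
        have p2 : 0 ≤ (t - s) / t := div_nonneg (by linarith) ht0.le
        have a1 : s / t + (t - s) / t = 1 := by field_simp; ring
        have h1 : ‖z‖ ≤ s / t * ‖z + t • u‖ + (t - s) / t * ‖z‖ := by
          calc ‖z‖ = ‖(s / t) • (z + t • u) + ((t - s) / t) • z‖ := by rw [← e1, ← hz]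
            _ ≤ ‖(s / t) • (z + t • u)‖ + ‖((t - s) / t) • z‖ := norm_add_le _ _
            _ = _ := by
              rw [norm_smul, norm_smul, Real.norm_of_nonneg p1.le, Real.norm_of_nonneg p2]
        have h2 : s / t * ‖z‖ ≤ s / t * ‖z + t • u‖ := by
          have : s / t * ‖z‖ + (t - s) / t * ‖z‖ = ‖z‖ := by rw [← add_mul, a1, one_mul]
          linarith
        exact le_of_mul_le_mul_left h2 p1
  intro t
  have := key (τ + t)
  rwa [add_smul, ← add_assoc] at this

end Pool.Agent.L7h70.SC
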